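import Pool.Agent.Helper32_NJ.Stmts

set_option autoImplicit false

/-!
# Squad NJ, module TOR: full rational 2-torsion
-/

namespace Pool.Agent.NJ.H27

open Polynomial

open Classical in
/-- a nonzero point killed by 2 -/
theorem two_tor {F : Type} [Field F] (W : WeierstrassCurve F)
    (P : W.toAffine.Point) (hP : 2 • P = 0) (h0 : P ≠ 0) :
    ∃ (X Y : F) (h : W.toAffine.Nonsingular X Y), P = WeierstrassCurve.Affine.Point.some X Y h ∧
      2 * Y + W.a₁ * X + W.a₃ = 0 ∧ 4 * X ^ 3 + W.b₂ * X ^ 2 + 2 * W.b₄ * X + W.b₆ = 0 := by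
  rcases P with _ | ⟨X, Y, h⟩
  · exact absurd rfl h0
  · have h1 : WeierstrassCurve.Affine.Point.some X Y h = -WeierstrassCurve.Affine.Point.some X Y h := by
      rw [eq_neg_iff_add_eq_zero, ← two_nsmul]
      exact hP
    rw [WeierstrassCurve.Affine.Point.neg_some] at h1
    have h3 := (WeierstrassCurve.Affine.Point.some.inj h1).2
    have h4 : 2 * Y + W.a₁ * X + W.a₃ = 0 := by
      rw [WeierstrassCurve.Affine.negY] at h3
      linear_combination h3
    refine ⟨X, Y, h, rfl, h4, ?_⟩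
    have h5 := (W.toAffine.equation_iff X Y).1 h.1
    rw [WeierstrassCurve.b₂, WeierstrassCurve.b₄, WeierstrassCurve.b₆]
    linear_combination (2 * Y + W.a₁ * X + W.a₃) * h4 - 4 * h5

theorem tor : TORStmt := by
  classical
  intro W hΔ hF
  have h2 : (2 : RatFunc ℚ) ≠ 0 := two_ne_zero
  unfold FullTwo at hF
  have hfin : Finite {P : W.toAffine.Point // 2 • P = 0} := Nat.finite_of_card_ne_zero (by
    rw [hF]; norm_num)
  let z : {P : W.toAffine.Point // 2 • P = 0} := ⟨0, nsmul_zero 2⟩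
  have hft : Fintype {P : W.toAffine.Point // 2 • P = 0} := Fintype.ofFinite _
  have hc : (Finset.univ.erase z).card = 3 := by
    rw [Finset.card_erase_of_mem (Finset.mem_univ _), Finset.card_univ, ← Nat.card_eq_fintype_card,
      hF]
  obtain ⟨P1, P2, P3, h12, h13, h23, hs⟩ := Finset.card_eq_three.1 hc
  have hne : ∀ P : {P : W.toAffine.Point // 2 • P = 0}, P ∈ Finset.univ.erase z → P.1 ≠ 0 := by
    intro P hP h
    exact (Finset.mem_erase.1 hP).1 (Subtype.ext h)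
  obtain ⟨X1, Y1, n1, e1, f1, g1⟩ := two_tor W P1.1 P1.2 (hne P1 (by rw [hs]; simp))
  obtain ⟨X2, Y2, n2, e2, f2, g2⟩ := two_tor W P2.1 P2.2 (hne P2 (by rw [hs]; simp))
  obtain ⟨X3, Y3, n3, e3, f3, g3⟩ := two_tor W P3.1 P3.2 (hne P3 (by rw [hs]; simp))
  have key : ∀ (P Q : {P : W.toAffine.Point // 2 • P = 0}) (X Y X' Y' : RatFunc ℚ) (n n'),
      P.1 = WeierstrassCurve.Affine.Point.some X Y n →
      Q.1 = WeierstrassCurve.Affine.Point.some X' Y' n' →
      2 * Y + W.a₁ * X + W.a₃ = 0 → 2 * Y' + W.a₁ * X' + W.a₃ = 0 → P ≠ Q → X ≠ X' := by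
    intro P Q X Y X' Y' n n' hP hQ hY hY' hPQ hX
    subst hX
    have hYY : Y = Y' := by
      apply mul_left_cancel₀ h2
      linear_combination hY - hY'
    subst hYY
    exact hPQ (Subtype.ext (hP.trans hQ.symm))
  have k12 := key P1 P2 X1 Y1 X2 Y2 n1 n2 e1 e2 f1 f2 h12
  have k13 := key P1 P3 X1 Y1 X3 Y3 n1 n3 e1 e3 f1 f3 h13
  have k23 := key P2 P3 X2 Y2 X3 Y3 n2 n3 e2 e3 f2 f3 h23
  have d12 : X1 - X2 ≠ 0 := sub_ne_zero.2 k12
  have d13 : X1 - X3 ≠ 0 := sub_ne_zero.2 k13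
  have d23 : X2 - X3 ≠ 0 := sub_ne_zero.2 k23
  -- divided differences
  have s12 : 4 * (X1 ^ 2 + X1 * X2 + X2 ^ 2) + W.b₂ * (X1 + X2) + 2 * W.b₄ = 0 := by
    apply mul_left_cancel₀ d12
    linear_combination g1 - g2
  have s13 : 4 * (X1 ^ 2 + X1 * X3 + X3 ^ 2) + W.b₂ * (X1 + X3) + 2 * W.b₄ = 0 := by
    apply mul_left_cancel₀ d13
    linear_combination g1 - g3
  have t : 4 * (X1 + X2 + X3) + W.b₂ = 0 := by
    apply mul_left_cancel₀ d23
    linear_combination s12 - s13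
  have hb2 : W.b₂ = -4 * (X1 + X2 + X3) := by linear_combination t
  have hb4 : W.b₄ = 2 * (X1 * X2 + X1 * X3 + X2 * X3) := by
    apply mul_left_cancel₀ h2
    linear_combination s12 - (X1 + X2) * t
  have hb6 : W.b₆ = -4 * (X1 * X2 * X3) := by
    linear_combination g1 - X1 ^ 2 * hb2 - 2 * X1 * hb4
  exact ⟨X1, X2, X3, ⟨hb2, hb4, hb6⟩, k12, k23, k13.symm⟩

end Pool.Agent.NJ.H27
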